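import Mathlib

set_option autoImplicit false

namespace Pool.Agent.Results.MP_598d44_co.SimWidthLineComplete

/-! ## Matchings and cherries inside a vertex set -/

section Comb

variable {V : Type*} [DecidableEq V]

/-- `k` disjoint pairs inside `U`, all in the relation `R` -/
def Mt (R : V → V → Prop) : ℕ → Finset V → Prop
  | 0, _ => True
  | k + 1, U => ∃ x ∈ U, ∃ y ∈ U, x ≠ y ∧ R x y ∧ Mt R k (U \ {x, y})

/-- `k` disjoint cherries inside `U`: a centre `x` with one pair `xy` in `R`, one pair `xz` not -/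
def Tr (R : V → V → Prop) : ℕ → Finset V → Prop
  | 0, _ => True
  | k + 1, U => ∃ x ∈ U, ∃ y ∈ U, ∃ z ∈ U, x ≠ y ∧ x ≠ z ∧ y ≠ z ∧ R x y ∧ ¬ R x z ∧
      Tr R k (U \ {x, y, z})

theorem mt_mono {R R' : V → V → Prop} : ∀ (k : ℕ) (U U' : Finset V), U ⊆ U' →
    (∀ x ∈ U, ∀ y ∈ U, x ≠ y → R x y → R' x y) → Mt R k U → Mt R' k U'
  | 0, _, _, _, _, _ => trivial
  | k + 1, _, _, h, hR, ⟨x, hx, y, hy, hxy, hr, hm⟩ =>
    ⟨x, h hx, y, h hy, hxy, hR x hx y hy hxy hr,
      mt_mono k _ _ (Finset.sdiff_subset_sdiff h (Finset.Subset.refl _))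
        (fun a ha b hb => hR a (Finset.mem_sdiff.1 ha).1 b (Finset.mem_sdiff.1 hb).1) hm⟩

theorem mt_sub {R : V → V → Prop} {k : ℕ} {U U' : Finset V} (h : U ⊆ U') (hm : Mt R k U) :
    Mt R k U' := mt_mono k U U' h (fun _ _ _ _ _ h => h) hm

theorem tr_sub {R : V → V → Prop} : ∀ {k : ℕ} {U U' : Finset V}, U ⊆ U' → Tr R k U → Tr R k U'
  | 0, _, _, _, _ => trivial
  | _ + 1, _, _, h, ⟨x, hx, y, hy, z, hz, h1, h2, h3, h4, h5, hm⟩ =>
    ⟨x, h hx, y, h hy, z, h hz, h1, h2, h3, h4, h5,
      tr_sub (Finset.sdiff_subset_sdiff h (Finset.Subset.refl _)) hm⟩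

theorem tr_compl {R : V → V → Prop} : ∀ {k : ℕ} {U : Finset V},
    Tr (fun x y => ¬ R x y) k U → Tr R k U
  | 0, _, _ => trivial
  | k + 1, U, ⟨x, hx, y, hy, z, hz, h1, h2, h3, h4, h5, hm⟩ =>
    ⟨x, hx, z, hz, y, hy, h2, h1, h3.symm, not_not.1 h5, h4, by
      have := tr_compl hm
      refine tr_sub ?_ this
      intro a ha
      simp only [Finset.mem_sdiff, Finset.mem_insert, Finset.mem_singleton] at ha ⊢
      tauto⟩

/-- an `R`-matching with support `S` as an involution -/
def IsM (R : V → V → Prop) (S : Finset V) (f : V → V) : Prop :=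
  ∀ x ∈ S, f x ∈ S ∧ f (f x) = x ∧ f x ≠ x ∧ R x (f x)

theorem isM_rem {R : V → V → Prop} {S : Finset V} {f : V → V} (h : IsM R S f) {x : V} (hx : x ∈ S) :
    IsM R (S \ {x, f x}) f := by
  intro y hy
  simp only [Finset.mem_sdiff, Finset.mem_insert, Finset.mem_singleton, not_or] at hy ⊢
  obtain ⟨h1, h2, h3, h4⟩ := h y hy.1
  refine ⟨⟨h1, ?_, ?_⟩, h2, h3, h4⟩
  · intro e; apply hy.2.2; rw [← e, h2]
  · intro e; apply hy.2.1
    rw [← h2, e, (h x hx).2.1]

theorem isM_rem_card {R : V → V → Prop} {S : Finset V} {f : V → V} (h : IsM R S f) {x : V}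
    (hx : x ∈ S) : (S \ {x, f x}).card + 2 = S.card := by
  have h1 : ({x, f x} : Finset V) ⊆ S := by
    intro a ha
    simp only [Finset.mem_insert, Finset.mem_singleton] at ha
    rcases ha with rfl | rfl
    · exact hx
    · exact (h x hx).1
  have h2 := Finset.card_sdiff_add_card_eq_card h1
  rw [Finset.card_pair (h x hx).2.2.1.symm] at h2
  exact h2

theorem isM_even {R : V → V → Prop} {f : V → V} : ∀ (n : ℕ) (S : Finset V), S.card = n →
    IsM R S f → Even n := by
  intro n
  induction n using Nat.strong_induction_on with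
  | _ n ih =>
    intro S hS h
    rcases S.eq_empty_or_nonempty with rfl | ⟨x, hx⟩
    · simp at hS; subst hS; simp
    · have h1 := isM_rem_card h hx
      have h2 := ih (n - 2) (by omega) (S \ {x, f x}) (by omega) (isM_rem h hx)
      obtain ⟨m, hm⟩ := h2
      exact ⟨m + 1, by omega⟩

theorem mt_of_isM {R : V → V → Prop} {f : V → V} : ∀ (k : ℕ) (S : Finset V), 2 * k ≤ S.card →
    IsM R S f → Mt R k S := by
  intro k
  induction k with
  | zero => intros; trivial
  | succ k ih =>
    intro S hS h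
    obtain ⟨x, hx⟩ : S.Nonempty := Finset.card_pos.1 (by omega)
    have h1 := isM_rem_card h hx
    exact ⟨x, hx, f x, (h x hx).1, (h x hx).2.2.1.symm, (h x hx).2.2.2,
      ih _ (by omega) (isM_rem h hx)⟩

theorem isM_of_mt {R : V → V → Prop} (hs : ∀ x y, R x y → R y x) : ∀ (k : ℕ) (U : Finset V),
    Mt R k U → ∃ S ⊆ U, ∃ f, IsM R S f ∧ S.card = 2 * k := by
  intro k
  induction k with
  | zero => intro U _; exact ⟨∅, by simp, id, by simp [IsM], rfl⟩
  | succ k ih =>
    rintro U ⟨x, hx, y, hy, hxy, hr, hm⟩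
    obtain ⟨S, hSU, f, hf, hc⟩ := ih _ hm
    have hxS : x ∉ S := fun h => by simpa using hSU h
    have hyS : y ∉ S := fun h => by simpa using hSU h
    refine ⟨insert x (insert y S), ?_, Function.update (Function.update f x y) y x, ?_, ?_⟩
    · intro a ha
      simp only [Finset.mem_insert] at ha
      rcases ha with rfl | rfl | ha
      · exact hx
      · exact hy
      · exact (Finset.mem_sdiff.1 (hSU ha)).1
    · intro a ha
      simp only [Finset.mem_insert] at ha ⊢
      rcases ha with rfl | rfl | ha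
      · simp [hxy.symm, Function.update_of_ne hxy, hr]
      · simp [hxy, hs _ _ hr]
      · have hax : a ≠ x := fun e => hxS (e ▸ ha)
        have hay : a ≠ y := fun e => hyS (e ▸ ha)
        obtain ⟨h1, h2, h3, h4⟩ := hf a ha
        have hfx : f a ≠ x := fun e => hxS (e ▸ h1)
        have hfy : f a ≠ y := fun e => hyS (e ▸ h1)
        rw [Function.update_of_ne hay, Function.update_of_ne hax, Function.update_of_ne hfy,
          Function.update_of_ne hfx]
        exact ⟨Or.inr (Or.inr h1), h2, h3, h4⟩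
    · rw [Finset.card_insert_of_notMem, Finset.card_insert_of_notMem hyS, hc]
      · ring
      · simp [hxy, hxS]

/-- all pairs in `R`: perfect matching -/
theorem mt_complete {R : V → V → Prop} : ∀ (k : ℕ) (U : Finset V), 2 * k ≤ U.card →
    (∀ x ∈ U, ∀ y ∈ U, x ≠ y → R x y) → Mt R k U := by
  intro k
  induction k with
  | zero => intros; trivial
  | succ k ih =>
    intro U hU h
    obtain ⟨x, hx, y, hy, hxy⟩ := Finset.one_lt_card.1 (by omega : 1 < U.card)
    refine ⟨x, hx, y, hy, hxy, h x hx y hy hxy, ih _ ?_ ?_⟩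
    · have h1 : ({x, y} : Finset V) ⊆ U := by
        intro a ha
        simp only [Finset.mem_insert, Finset.mem_singleton] at ha
        rcases ha with rfl | rfl <;> assumption
      have h2 := Finset.card_sdiff_add_card_eq_card h1
      rw [Finset.card_pair hxy] at h2
      omega
    · intro a ha b hb
      exact h a (Finset.mem_sdiff.1 ha).1 b (Finset.mem_sdiff.1 hb).1

theorem card_sdiff_ge (U T : Finset V) (m : ℕ) (h : T.card ≤ m) : U.card ≤ (U \ T).card + m := by
  have h1 := Finset.le_card_sdiff T U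
  omega

theorem card3 (x y z : V) : ({x, y, z} : Finset V).card ≤ 3 := Finset.card_le_three

theorem card2 (x y : V) : ({x, y} : Finset V).card ≤ 2 := Finset.card_le_two

theorem card4 (x y z w : V) : ({x, y, z, w} : Finset V).card ≤ 4 := Finset.card_le_four

/-- two colours: `3k - 1` vertices force a monochromatic `k`-matching -/
theorem ramsey2 {R : V → V → Prop} (hs : ∀ x y, R x y → R y x) : ∀ (k : ℕ) (U : Finset V),
    3 * k ≤ U.card + 1 → Mt R k U ∨ Mt (fun x y => ¬ R x y) k U := by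
  intro k
  induction k with
  | zero => intro U _; left; trivial
  | succ k ih =>
    intro U hU
    by_cases hch : ∃ x ∈ U, ∃ y ∈ U, ∃ z ∈ U, x ≠ y ∧ x ≠ z ∧ y ≠ z ∧ R x y ∧ ¬ R x z
    · obtain ⟨x, hx, y, hy, z, hz, h1, h2, h3, h4, h5⟩ := hch
      have hc := card_sdiff_ge U {x, y, z} 3 (card3 x y z)
      rcases ih (U \ {x, y, z}) (by omega) with h | h
      · left
        refine ⟨x, hx, y, hy, h1, h4, mt_sub ?_ h⟩
        intro a ha
        simp only [Finset.mem_sdiff, Finset.mem_insert, Finset.mem_singleton] at ha ⊢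
        tauto
      · right
        refine ⟨x, hx, z, hz, h2, h5, mt_sub ?_ h⟩
        intro a ha
        simp only [Finset.mem_sdiff, Finset.mem_insert, Finset.mem_singleton] at ha ⊢
        tauto
    · push Not at hch
      obtain ⟨x, hx, y, hy, hxy⟩ := Finset.one_lt_card.1 (by omega : 1 < U.card)
      by_cases hr : R x y
      · left
        apply mt_complete _ _ (by omega)
        have hxa : ∀ a ∈ U, a ≠ x → R x a := by
          intro a ha hax
          by_cases hay : a = y
          · rw [hay]; exact hr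
          · exact hch x hx y hy a ha hxy (Ne.symm hax) (Ne.symm hay) hr
        intro a ha b hb hab
        by_cases hax : a = x
        · rw [hax]; exact hxa b hb (fun e => hab (by rw [hax, e]))
        · by_cases hbx : b = x
          · rw [hbx]; exact hs _ _ (hxa a ha hax)
          · exact hch a ha x hx b hb hax hab (Ne.symm hbx) (hs _ _ (hxa a ha hax))
      · right
        apply mt_complete _ _ (by omega)
        have hxa : ∀ a ∈ U, a ≠ x → ¬ R x a := by
          intro a ha hax h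
          by_cases hay : a = y
          · rw [hay] at h; exact hr h
          · exact hr (hch x hx a ha y hy (Ne.symm hax) hxy hay h)
        intro a ha b hb hab h
        by_cases hax : a = x
        · rw [hax] at h; exact hxa b hb (fun e => hab (by rw [hax, e])) h
        · by_cases hbx : b = x
          · rw [hbx] at h; exact hxa a ha hax (hs _ _ h)
          · exact hxa a ha hax (hs _ _ (hch a ha b hb x hx hab hax hbx h))

/-- three colours: `4k - 2` vertices force a monochromatic `k`-matching -/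
theorem ramsey3 {c : V → V → Fin 3} (hs : ∀ x y, c x y = c y x) : ∀ (k : ℕ) (U : Finset V),
    4 * k ≤ U.card + 2 → ∃ i, Mt (fun x y => c x y = i) k U := by
  intro k
  induction k with
  | zero => intro U _; exact ⟨0, trivial⟩
  | succ k ih =>
    intro U hU
    rcases Nat.eq_zero_or_pos k with rfl | hk
    · obtain ⟨x, hx, y, hy, hxy⟩ := Finset.one_lt_card.1 (by omega : 1 < U.card)
      exact ⟨c x y, x, hx, y, hy, hxy, rfl, trivial⟩
    by_cases hT : ∃ T ⊆ U, T.card ≤ 4 ∧ ∀ i : Fin 3, ∃ x ∈ T, ∃ y ∈ T, x ≠ y ∧ c x y = i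
    · obtain ⟨T, hTU, hT4, hT⟩ := hT
      have hc := card_sdiff_ge U T 4 hT4
      obtain ⟨i, hi⟩ := ih (U \ T) (by omega)
      obtain ⟨x, hx, y, hy, hxy, hcx⟩ := hT i
      refine ⟨i, x, hTU hx, y, hTU hy, hxy, hcx, mt_sub ?_ hi⟩
      intro a ha
      simp only [Finset.mem_sdiff, Finset.mem_insert, Finset.mem_singleton] at ha ⊢
      refine ⟨ha.1, ?_⟩
      rintro (rfl | rfl)
      · exact ha.2 hx
      · exact ha.2 hy
    · -- some colour is missing
      have hmiss : ∃ i : Fin 3, ∀ x ∈ U, ∀ y ∈ U, x ≠ y → c x y ≠ i := by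
        by_contra hall
        push Not at hall
        apply hT
        have hch : ∃ v ∈ U, ∃ u ∈ U, ∃ w ∈ U, v ≠ u ∧ v ≠ w ∧ u ≠ w ∧ c v u ≠ c v w := by
          by_contra hno
          push Not at hno
          obtain ⟨a, ha, b, hb, hab, hcab⟩ := hall 0
          obtain ⟨p, hp, q, hq, hpq, hcpq⟩ := hall 1
          have key : ∀ u ∈ U, ∀ v ∈ U, ∀ w ∈ U, v ≠ u → v ≠ w → c v u = c v w := by
            intro u hu v hv w hw h1 h2
            by_cases h3 : u = w
            · rw [h3]
            · exact hno v hv u hu w hw h1 h2 h3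
          have h0 : ∀ v ∈ U, v ≠ a → c a v = 0 := by
            intro v hv hva
            rw [← key b hb a ha v hv hab (Ne.symm hva)]; exact hcab
          have : c p q = 0 := by
            by_cases hpa : p = a
            · rw [hpa]; exact h0 q hq (fun e => hpq (by rw [hpa, e]))
            · rw [key q hq p hp a ha hpq hpa, hs]; exact h0 p hp hpa
          rw [this] at hcpq
          exact absurd hcpq (by decide)
        obtain ⟨v, hv, u, hu, w, hw, hvu, hvw, huw, hne⟩ := hch
        obtain ⟨r, hr1, hr2, hr3⟩ : ∃ r : Fin 3, r ≠ c v u ∧ r ≠ c v w ∧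
            ∀ i, i = c v u ∨ i = c v w ∨ i = r := by
          generalize c v u = p at hne
          generalize c v w = q at hne
          revert p q
          decide
        obtain ⟨x, hx, y, hy, hxy, hcr⟩ := hall r
        have good : ∀ T : Finset V, T ⊆ U → T.card ≤ 4 → (∃ a ∈ T, ∃ b ∈ T, a ≠ b ∧ c a b = c v u) →
            (∃ a ∈ T, ∃ b ∈ T, a ≠ b ∧ c a b = c v w) → (∃ a ∈ T, ∃ b ∈ T, a ≠ b ∧ c a b = r) →
            ∃ T ⊆ U, T.card ≤ 4 ∧ ∀ i : Fin 3, ∃ x ∈ T, ∃ y ∈ T, x ≠ y ∧ c x y = i := by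
          intro T h1 h2 h3 h4 h5
          refine ⟨T, h1, h2, fun i => ?_⟩
          rcases hr3 i with rfl | rfl | rfl
          · exact h3
          · exact h4
          · exact h5
        have sub4 : ∀ p q s t : V, p ∈ U → q ∈ U → s ∈ U → t ∈ U → ({p, q, s, t} : Finset V) ⊆ U := by
          intro p q s t h1 h2 h3 h4 a ha
          simp only [Finset.mem_insert, Finset.mem_singleton] at ha
          rcases ha with rfl | rfl | rfl | rfl <;> assumption
        have memb : ∀ p q s t : V, p ∈ ({p, q, s, t} : Finset V) ∧ q ∈ ({p, q, s, t} : Finset V) ∧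
            s ∈ ({p, q, s, t} : Finset V) ∧ t ∈ ({p, q, s, t} : Finset V) := by
          intro p q s t; simp
        -- case `x` or `y` among `u, v, w`
        by_cases hxin : x = u ∨ x = v ∨ x = w
        · refine good {u, v, w, y} (sub4 _ _ _ _ hu hv hw hy) (card4 _ _ _ _) ?_ ?_ ?_
          · exact ⟨v, (memb u v w y).2.1, u, (memb u v w y).1, hvu, rfl⟩
          · exact ⟨v, (memb u v w y).2.1, w, (memb u v w y).2.2.1, hvw, rfl⟩
          · refine ⟨x, ?_, y, (memb u v w y).2.2.2, hxy, hcr⟩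
            simp only [Finset.mem_insert, Finset.mem_singleton]; tauto
        · push Not at hxin
          obtain ⟨hxu, hxv, hxw⟩ := hxin
          by_cases h1 : c x v = c v w
          · -- T = {x, y, u, v}
            refine good {x, y, u, v} (sub4 _ _ _ _ hx hy hu hv) (card4 _ _ _ _) ?_ ?_ ?_
            · exact ⟨v, (memb x y u v).2.2.2, u, (memb x y u v).2.2.1, hvu, rfl⟩
            · exact ⟨x, (memb x y u v).1, v, (memb x y u v).2.2.2, hxv, h1⟩
            · exact ⟨x, (memb x y u v).1, y, (memb x y u v).2.1, hxy, hcr⟩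
          · by_cases h2 : c x v = c v u
            · refine good {x, y, v, w} (sub4 _ _ _ _ hx hy hv hw) (card4 _ _ _ _) ?_ ?_ ?_
              · exact ⟨x, (memb x y v w).1, v, (memb x y v w).2.2.1, hxv, h2⟩
              · exact ⟨v, (memb x y v w).2.2.1, w, (memb x y v w).2.2.2, hvw, rfl⟩
              · exact ⟨x, (memb x y v w).1, y, (memb x y v w).2.1, hxy, hcr⟩
            · have h3 : c x v = r := by
                rcases hr3 (c x v) with h | h | h
                · exact absurd h h2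
                · exact absurd h h1
                · exact h
              refine good {x, u, v, w} (sub4 _ _ _ _ hx hu hv hw) (card4 _ _ _ _) ?_ ?_ ?_
              · exact ⟨v, (memb x u v w).2.2.1, u, (memb x u v w).2.1, hvu, rfl⟩
              · exact ⟨v, (memb x u v w).2.2.1, w, (memb x u v w).2.2.2, hvw, rfl⟩
              · exact ⟨x, (memb x u v w).1, v, (memb x u v w).2.2.1, hxv, h3⟩
      obtain ⟨i, hi⟩ := hmiss
      have aux : ∀ i : Fin 3, ∃ j l : Fin 3, j ≠ i ∧ l ≠ i ∧ ∀ m, m = i ∨ m = j ∨ m = l := by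
        decide
      obtain ⟨j, l, hji, hli, hjl⟩ := aux i
      rcases ramsey2 (R := fun x y => c x y = j) (fun x y h => by rw [hs]; exact h) (k + 1) U
        (by omega) with h | h
      · exact ⟨j, h⟩
      · refine ⟨l, mt_mono _ U U (Finset.Subset.refl _) ?_ h⟩
        intro x hx y hy hxy hcj
        rcases hjl (c x y) with h | h | h
        · exact absurd h (hi x hx y hy hxy)
        · exact absurd h hcj
        · exact h

/-- a non-monochromatic triple gives a cherry -/
theorem tr_step {R : V → V → Prop} (hs : ∀ x y, R x y → R y x) {k : ℕ} {U : Finset V} {x y z : V}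
    (hx : x ∈ U) (hy : y ∈ U) (hz : z ∈ U) (hxy : x ≠ y) (hxz : x ≠ z) (hyz : y ≠ z)
    (h1 : ¬ (R x y ∧ R x z ∧ R y z)) (h2 : R x y ∨ R x z ∨ R y z)
    (hT : Tr R k (U \ {x, y, z})) : Tr R (k + 1) U := by
  have key : ∀ a b c : V, a ∈ U → b ∈ U → c ∈ U → a ≠ b → a ≠ c → b ≠ c → R a b → ¬ R a c →
      (∀ v, (v = a ∨ v = b ∨ v = c) → (v = x ∨ v = y ∨ v = z)) → Tr R (k + 1) U := by
    intro a b c ha hb hc hab hac hbc h3 h4 hv
    refine ⟨a, ha, b, hb, c, hc, hab, hac, hbc, h3, h4, tr_sub ?_ hT⟩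
    intro v hv'
    simp only [Finset.mem_sdiff, Finset.mem_insert, Finset.mem_singleton] at hv' ⊢
    exact ⟨hv'.1, fun h => hv'.2 (hv v h)⟩
  by_cases hA : R x y
  · by_cases hB : R x z
    · by_cases hC : R y z
      · exact absurd ⟨hA, hB, hC⟩ h1
      · exact key y x z hy hx hz (Ne.symm hxy) hyz hxz (hs _ _ hA) hC (by intro v hv; tauto)
    · exact key x y z hx hy hz hxy hxz hyz hA hB (by intro v hv; tauto)
  · by_cases hB : R x z
    · exact key x z y hx hz hy hxz hxy (Ne.symm hyz) hB hA (by intro v hv; tauto)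
    · have hC : R y z := by tauto
      exact key y z x hy hz hx hyz (Ne.symm hxy) (Ne.symm hxz) hC (fun h => hA (hs _ _ h))
        (by intro v hv; tauto)

/-- remove a vertex from a matching at the cost of one edge -/
theorem rem1 {R : V → V → Prop} {S : Finset V} {f : V → V} (h : IsM R S f) {k : ℕ}
    (hc : S.card = 2 * (k + 1)) (v : V) : Mt R k (S \ {v}) := by
  by_cases hv : v ∈ S
  · have h1 := isM_rem_card h hv
    refine mt_sub ?_ (mt_of_isM k _ (by omega) (isM_rem h hv))
    intro a ha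
    simp only [Finset.mem_sdiff, Finset.mem_insert, Finset.mem_singleton] at ha ⊢
    tauto
  · refine mt_sub ?_ (mt_of_isM k _ (by omega) h)
    intro a ha
    simp only [Finset.mem_sdiff, Finset.mem_singleton]
    exact ⟨ha, fun e => hv (e ▸ ha)⟩

/-- the case where two spare vertices are joined to everything in `R` -/
theorem caseA2 {R : V → V → Prop} (hs : ∀ x y, R x y → R y x) {k : ℕ} {U F G : Finset V}
    {f g : V → V} (hF : F ⊆ U) (hG : G ⊆ U) (hf : IsM R F f) (hg : IsM (fun x y => ¬ R x y) G g)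
    (hFc : F.card = 2 * (k + 1)) (hGc : G.card = 2 * (k + 1)) {w1 w2 : V} (hw1 : w1 ∈ U)
    (hw2 : w2 ∈ U) (hw12 : w1 ≠ w2) (h1F : w1 ∉ F) (h1G : w1 ∉ G) (h2F : w2 ∉ F) (h2G : w2 ∉ G)
    (hall1 : ∀ v ∈ U, v ≠ w1 → v ≠ w2 → R w1 v) (hall2 : ∀ v ∈ U, v ≠ w1 → v ≠ w2 → R w2 v)
    (ih : ∀ U' : Finset V, U.card ≤ U'.card + 3 → Mt R k U' → Mt (fun x y => ¬ R x y) k U' →
      Tr R k U') : Tr R (k + 1) U := by
  obtain ⟨x, hx⟩ : G.Nonempty := Finset.card_pos.1 (by omega)
  obtain ⟨hg1, hg2, hg3, hg4⟩ := hg x hx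
  have hxU := hG hx
  have hgU := hG hg1
  have hx1 : x ≠ w1 := fun e => h1G (e ▸ hx)
  have hx2 : x ≠ w2 := fun e => h2G (e ▸ hx)
  have hgx1 : g x ≠ w1 := fun e => h1G (e ▸ hg1)
  have hgx2 : g x ≠ w2 := fun e => h2G (e ▸ hg1)
  refine tr_step hs hw1 hxU hgU hx1.symm hgx1.symm hg3.symm (fun h => hg4 h.2.2)
    (Or.inl (hall1 x hxU hx1 hx2)) ?_
  have hcU := card_sdiff_ge U {w1, x, g x} 3 (card3 _ _ _)
  refine ih _ hcU ?_ ?_
  · by_cases hxF : x ∈ F
    · by_cases hgF : g x ∈ F
      · -- repair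
        obtain ⟨hf1, hf2, hf3, hf4⟩ := hf x hxF
        have hy : f x ≠ g x := fun e => hg4 (e ▸ hf4)
        cases k with
        | zero => trivial
        | succ k =>
          have e1 := isM_rem_card hf hxF
          have hgF' : g x ∈ F \ {x, f x} := by
            simp only [Finset.mem_sdiff, Finset.mem_insert, Finset.mem_singleton]
            exact ⟨hgF, by rintro (h | h); exacts [hg3 h, hy h.symm]⟩
          have e2 := isM_rem_card (isM_rem hf hxF) hgF'
          have hfw1 : f x ≠ w1 := fun e => h1F (e ▸ hf1)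
          have hfw2 : f x ≠ w2 := fun e => h2F (e ▸ hf1)
          refine ⟨w2, ?_, f x, ?_, hfw2.symm, hall2 _ (hF hf1) hfw1 hfw2, ?_⟩
          · simp only [Finset.mem_sdiff, Finset.mem_insert, Finset.mem_singleton]
            exact ⟨hw2, by rintro (h | h | h); exacts [hw12 h.symm, hx2 h.symm, hgx2 h.symm]⟩
          · simp only [Finset.mem_sdiff, Finset.mem_insert, Finset.mem_singleton]
            exact ⟨hF hf1, by rintro (h | h | h); exacts [hfw1 h, hf3 h, hy h]⟩
          · refine mt_sub ?_ (mt_of_isM k _ (by omega) (isM_rem (isM_rem hf hxF) hgF'))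
            intro a ha
            simp only [Finset.mem_sdiff, Finset.mem_insert, Finset.mem_singleton, not_or] at ha ⊢
            obtain ⟨⟨ha1, ha2, ha3⟩, ha4, ha5⟩ := ha
            exact ⟨⟨hF ha1, fun e => h1F (e ▸ ha1), ha2, ha4⟩, fun e => h2F (e ▸ ha1), ha3⟩
      · refine mt_sub ?_ (rem1 hf hFc x)
        intro a ha
        simp only [Finset.mem_sdiff, Finset.mem_insert, Finset.mem_singleton, not_or] at ha ⊢
        exact ⟨hF ha.1, fun e => h1F (e ▸ ha.1), ha.2, fun e => hgF (e ▸ ha.1)⟩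
    · refine mt_sub ?_ (rem1 hf hFc (g x))
      intro a ha
      simp only [Finset.mem_sdiff, Finset.mem_insert, Finset.mem_singleton, not_or] at ha ⊢
      exact ⟨hF ha.1, fun e => h1F (e ▸ ha.1), fun e => hxF (e ▸ ha.1), ha.2⟩
  · have e1 := isM_rem_card hg hx
    refine mt_sub ?_ (mt_of_isM k _ (by omega) (isM_rem hg hx))
    intro a ha
    simp only [Finset.mem_sdiff, Finset.mem_insert, Finset.mem_singleton, not_or] at ha ⊢
    exact ⟨hG ha.1, fun e => h1G (e ▸ ha.1), ha.2.1, ha.2.2⟩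

/-- six vertices -/
theorem six {R : V → V → Prop} (hs : ∀ x y, R x y → R y x) {U : Finset V} {a b c d p q : V}
    (ha : a ∈ U) (hb : b ∈ U) (hc : c ∈ U) (hd : d ∈ U) (hp : p ∈ U) (hq : q ∈ U)
    (hab : a ≠ b) (hac : a ≠ c) (had : a ≠ d) (hap : a ≠ p) (haq : a ≠ q) (hbc : b ≠ c)
    (hbd : b ≠ d) (hbp : b ≠ p) (hbq : b ≠ q) (hcd : c ≠ d) (hcp : c ≠ p) (hcq : c ≠ q)
    (hdp : d ≠ p) (hdq : d ≠ q) (hpq : p ≠ q)
    (h1 : R a b) (h2 : R c d) (h3 : ¬ R a c) (h4 : ¬ R p q ∨ ¬ R b p) : Tr R 2 U := by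
  have h3' : ¬ R c a := fun h => h3 (hs _ _ h)
  -- `{a,b,c}`, `{d,p,q}`
  by_cases hA : (R d p ∧ R d q ∧ R p q) ∨ ¬ (R d p ∨ R d q ∨ R p q)
  · by_cases hB : (R b p ∧ R b q ∧ R p q) ∨ ¬ (R b p ∨ R b q ∨ R p q)
    · have hn : ¬ R p q := by tauto
      have hbp' : ¬ R b p := by tauto
      have hdq' : ¬ R d q := by tauto
      refine tr_step (x := a) (y := b) (z := p) hs ha hb hp hab hap hbp (by tauto) (by tauto) ?_
      refine tr_step (x := c) (y := d) (z := q) hs ?_ ?_ ?_ hcd hcq hdq (by tauto) (by tauto)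
        trivial
      all_goals simp only [Finset.mem_sdiff, Finset.mem_insert, Finset.mem_singleton, not_or]
      · exact ⟨hc, hac.symm, hbc.symm, hcp⟩
      · exact ⟨hd, had.symm, hbd.symm, hdp⟩
      · exact ⟨hq, haq.symm, hbq.symm, hpq.symm⟩
    · refine tr_step (x := a) (y := c) (z := d) hs ha hc hd hac had hcd (by tauto) (by tauto) ?_
      refine tr_step (x := b) (y := p) (z := q) hs ?_ ?_ ?_ hbp hbq hpq (by tauto) (by tauto)
        trivial
      all_goals simp only [Finset.mem_sdiff, Finset.mem_insert, Finset.mem_singleton, not_or]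
      · exact ⟨hb, hab.symm, hbc, hbd⟩
      · exact ⟨hp, hap.symm, hcp.symm, hdp.symm⟩
      · exact ⟨hq, haq.symm, hcq.symm, hdq.symm⟩
  · refine tr_step (x := a) (y := b) (z := c) hs ha hb hc hab hac hbc (by tauto) (by tauto) ?_
    refine tr_step (x := d) (y := p) (z := q) hs ?_ ?_ ?_ hdp hdq hpq (by tauto) (by tauto)
      trivial
    all_goals simp only [Finset.mem_sdiff, Finset.mem_insert, Finset.mem_singleton, not_or]
    · exact ⟨hd, had.symm, hbd.symm, hcd.symm⟩
    · exact ⟨hp, hap.symm, hbp.symm, hcp.symm⟩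
    · exact ⟨hq, haq.symm, hbq.symm, hcq.symm⟩

theorem mem_of_card3 {I : Finset V} (hI : I.card ≤ 3) {a b c z : V} (ha : a ∈ I) (hb : b ∈ I)
    (hc : c ∈ I) (hab : a ≠ b) (hac : a ≠ c) (hbc : b ≠ c) (hz : z ∈ I) : z = a ∨ z = b ∨ z = c := by
  by_contra h
  push Not at h
  obtain ⟨h1, h2, h3⟩ := h
  have hsub : ({a, b, c, z} : Finset V) ⊆ I := by
    intro v hv
    simp only [Finset.mem_insert, Finset.mem_singleton] at hv
    rcases hv with rfl | rfl | rfl | rfl <;> assumption
  have hcard : ({a, b, c, z} : Finset V).card = 4 := by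
    rw [Finset.card_insert_of_notMem, Finset.card_insert_of_notMem, Finset.card_insert_of_notMem,
      Finset.card_singleton]
    · simpa using h3.symm
    · simpa using ⟨hbc, h2.symm⟩
    · simpa using ⟨hab, hac, h1.symm⟩
  have := Finset.card_le_card hsub
  omega

/-- no `R`-edge is isolated, no good centre: only `k + 1 ≤ 3` remains -/
theorem caseBc {R : V → V → Prop} (hs : ∀ x y, R x y → R y x) {k : ℕ} (hk : 1 ≤ k)
    {U F G : Finset V} {f g : V → V} (hF : F ⊆ U) (hG : G ⊆ U) (hf : IsM R F f)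
    (hg : IsM (fun x y => ¬ R x y) G g)
    (hFc : F.card = 2 * (k + 1)) (hGc : G.card = 2 * (k + 1)) (hU : 4 * (k + 1) ≤ U.card + 2)
    (hI : (F ∩ G).card ≤ 3) (h1 : ∀ a ∈ F, a ∈ G ∨ f a ∈ G)
    (h2 : ∀ x ∈ F, x ∈ G → f x ∈ G ∨ g x ∈ F) : Tr R (k + 1) U := by
  have hsub : F ⊆ (F ∩ G) ∪ (F ∩ G).image f := by
    intro a ha
    obtain ⟨hf1, hf2, hf3, hf4⟩ := hf a ha
    rcases h1 a ha with h | h
    · exact Finset.mem_union_left _ (Finset.mem_inter.2 ⟨ha, h⟩)
    · exact Finset.mem_union_right _ (Finset.mem_image.2 ⟨f a, Finset.mem_inter.2 ⟨hf1, h⟩, hf2⟩)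
  have hc1 := Finset.card_le_card hsub
  have hc2 := Finset.card_union_add_card_inter (F ∩ G) ((F ∩ G).image f)
  have hc3 : ((F ∩ G).image f).card ≤ (F ∩ G).card := Finset.card_image_le
  have hk3 : k = 1 ∨ k = 2 := by omega
  rcases hk3 with rfl | rfl
  · -- `k + 1 = 2`
    by_cases hc : ∃ a ∈ F, a ∈ G ∧ f a ∈ G
    · obtain ⟨a, haF, haG, hfaG⟩ := hc
      obtain ⟨c, hcF, hcG, hca, hcb⟩ : ∃ c ∈ F, c ∈ G ∧ c ≠ a ∧ c ≠ f a := by
        have e1 := isM_rem_card hf haF
        obtain ⟨y, hy⟩ : (F \ {a, f a}).Nonempty := Finset.card_pos.1 (by omega)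
        have hy' := isM_rem hf haF y hy
        simp only [Finset.mem_sdiff, Finset.mem_insert, Finset.mem_singleton, not_or] at hy hy'
        rcases h1 y hy.1 with h | h
        · exact ⟨y, hy.1, h, hy.2.1, hy.2.2⟩
        · exact ⟨f y, hy'.1.1, h, hy'.1.2.1, hy'.1.2.2⟩
      obtain ⟨hfa1, hfa2, hfa3, hfa4⟩ := hf a haF
      obtain ⟨hfc1, hfc2, hfc3, hfc4⟩ := hf c hcF
      obtain ⟨hgc1, hgc2, hgc3, hgc4⟩ := hg c hcG
      have hinI := @mem_of_card3 V _ (F ∩ G) hI a (f a) c
      have haI : a ∈ F ∩ G := Finset.mem_inter.2 ⟨haF, haG⟩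
      have hbI : f a ∈ F ∩ G := Finset.mem_inter.2 ⟨hfa1, hfaG⟩
      have hcI : c ∈ F ∩ G := Finset.mem_inter.2 ⟨hcF, hcG⟩
      have hda : f c ≠ a := fun e => hcb (by rw [← e, hfc2])
      have hdb : f c ≠ f a := fun e => hca (by rw [← hfc2, e, hfa2])
      have hdG : f c ∉ G := by
        intro h
        rcases hinI (z := f c) haI hbI hcI hfa3.symm hca.symm hcb.symm
          (Finset.mem_inter.2 ⟨hfc1, h⟩) with h | h | h
        · exact hda h
        · exact hdb h
        · exact hfc3 h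
      have hgcF : g c ∈ F := (h2 c hcF hcG).resolve_left hdG
      have hgcab : g c = a ∨ g c = f a := by
        rcases hinI (z := g c) haI hbI hcI hfa3.symm hca.symm hcb.symm
          (Finset.mem_inter.2 ⟨hgcF, hgc1⟩) with h | h | h
        · exact Or.inl h
        · exact Or.inr h
        · exact absurd h hgc3
      -- `a' = g c`, `b' = f a'`
      have hall : ∀ a' b' : V, a' ∈ F ∩ G → b' ∈ F ∩ G → a' ≠ b' → c ≠ a' → c ≠ b' → R a' b' →
          g c = a' → f c ≠ a' → f c ≠ b' → Tr R 2 U := by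
        intro a' b' ha' hb' hab hca' hcb' hR hga hda' hdb'
        obtain ⟨hgb1, hgb2, hgb3, hgb4⟩ := hg b' (Finset.mem_inter.1 hb').2
        have hpa : g b' ≠ a' := fun e => hgb4 (by rw [e]; exact hs _ _ hR)
        have hpc : g b' ≠ c := fun e => hab (by rw [← hga, ← e, hgb2])
        have hpF : g b' ∉ F := by
          intro h
          rcases mem_of_card3 hI ha' hb' hcI hab hca'.symm hcb'.symm
            (Finset.mem_inter.2 ⟨h, hgb1⟩) with h | h | h
          · exact hpa h
          · exact hgb3 h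
          · exact hpc h
        have hdp : f c ≠ g b' := fun e => hpF (e ▸ hfc1)
        obtain ⟨q, hq⟩ : (U \ {a', b', c, f c, g b'}).Nonempty := by
          apply Finset.card_pos.1
          have e1 := card_sdiff_ge U {a', b', c, f c, g b'} 5 Finset.card_le_five
          omega
        simp only [Finset.mem_sdiff, Finset.mem_insert, Finset.mem_singleton, not_or] at hq
        obtain ⟨hqU, hqa, hqb, hqc, hqd, hqp⟩ := hq
        refine six hs (a := a') (b := b') (c := c) (d := f c) (p := g b') (q := q)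
          (hF (Finset.mem_inter.1 ha').1) (hF (Finset.mem_inter.1 hb').1) (hF hcF) (hF hfc1)
          (hG hgb1) hqU hab (Ne.symm hca') (Ne.symm hda') (Ne.symm hpa) (Ne.symm hqa)
          (Ne.symm hcb') (Ne.symm hdb') (Ne.symm hgb3) (Ne.symm hqb) (Ne.symm hfc3)
          (Ne.symm hpc) (Ne.symm hqc) hdp (Ne.symm hqd) (Ne.symm hqp) hR hfc4 ?_ (Or.inr hgb4)
        rw [← hga]
        exact fun h => hgc4 (hs _ _ h)
      rcases hgcab with h | h
      · exact hall a (f a) haI hbI hfa3.symm hca hcb hfa4 h hda hdb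
      · exact hall (f a) a hbI haI hfa3 hcb hca (hs _ _ hfa4) h hdb hda
    · push Not at hc
      have hI2 : ∀ x ∈ F, x ∈ G → g x ∈ F := fun x hx hx' => (h2 x hx hx').resolve_left (hc x hx hx')
      obtain ⟨a, haF, haG⟩ : ∃ a ∈ F, a ∈ G := by
        obtain ⟨y, hy⟩ : F.Nonempty := Finset.card_pos.1 (by omega)
        rcases h1 y hy with h | h
        · exact ⟨y, hy, h⟩
        · exact ⟨f y, (hf y hy).1, h⟩
      have hcF := hI2 a haF haG
      obtain ⟨hga1, hga2, hga3, hga4⟩ := hg a haG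
      obtain ⟨hfa1, hfa2, hfa3, hfa4⟩ := hf a haF
      obtain ⟨hfc1, hfc2, hfc3, hfc4⟩ := hf (g a) hcF
      have hbG := hc a haF haG
      have hdG := hc (g a) hcF hga1
      have e1 := isM_rem_card hg haG
      obtain ⟨p, hp⟩ : (G \ {a, g a}).Nonempty := Finset.card_pos.1 (by omega)
      have hq := isM_rem hg haG p hp
      simp only [Finset.mem_sdiff, Finset.mem_insert, Finset.mem_singleton, not_or] at hp hq
      obtain ⟨hpG, hpa, hpc⟩ := hp
      obtain ⟨⟨hqG, hqa, hqc⟩, hq2, hq3, hq4⟩ := hq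
      have hbc : f a ≠ g a := fun e => hbG (e ▸ hga1)
      have hda : a ≠ f (g a) := fun e => hdG (e ▸ haG)
      have hbd : f a ≠ f (g a) := fun e => hga3 (by rw [← hfc2, ← e, hfa2])
      exact six hs (a := a) (b := f a) (c := g a) (d := f (g a)) (p := p) (q := g p)
        (hF haF) (hF hfa1) (hF hcF) (hF hfc1) (hG hpG) (hG hqG) hfa3.symm hga3.symm hda
        (Ne.symm hpa) (Ne.symm hqa) hbc hbd (fun e => hbG (e ▸ hpG)) (fun e => hbG (e ▸ hqG))
        (Ne.symm hfc3) (Ne.symm hpc) (Ne.symm hqc) (fun e => hdG (e ▸ hpG))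
        (fun e => hdG (e ▸ hqG)) (Ne.symm hq3) hfa4 hfc4 hga4 (Or.inl hq4)
  · -- `k + 1 = 3`
    exfalso
    have hI3 : (F ∩ G).card = 3 := by omega
    have hno : ∀ x ∈ F ∩ G, f x ∉ F ∩ G := by
      intro x hx hx'
      have : 0 < ((F ∩ G) ∩ (F ∩ G).image f).card :=
        Finset.card_pos.2 ⟨f x, Finset.mem_inter.2 ⟨hx', Finset.mem_image_of_mem f hx⟩⟩
      omega
    have hM : IsM (fun x y => ¬ R x y) (F ∩ G) g := by
      intro x hx
      obtain ⟨hxF, hxG⟩ := Finset.mem_inter.1 hx
      obtain ⟨hg1, hg2, hg3, hg4⟩ := hg x hxG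
      have hfx : f x ∉ G := fun h => hno x hx (Finset.mem_inter.2 ⟨(hf x hxF).1, h⟩)
      exact ⟨Finset.mem_inter.2 ⟨(h2 x hxF hxG).resolve_left hfx, hg1⟩, hg2, hg3, hg4⟩
    have := isM_even 3 _ hI3 hM
    exact absurd this (by decide)

/-- both colours have a `k`-matching and `4k - 2` vertices: `k` disjoint cherries -/
theorem lemX {R : V → V → Prop} (hs : ∀ x y, R x y → R y x) : ∀ (k : ℕ) (U : Finset V),
    4 * k ≤ U.card + 2 → Mt R k U → Mt (fun x y => ¬ R x y) k U → Tr R k U := by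
  have hs' : ∀ x y, ¬ R x y → ¬ R y x := fun x y h h' => h (hs _ _ h')
  intro k
  induction k with
  | zero => intros; trivial
  | succ k ih =>
    intro U hU hm1 hm2
    rcases Nat.eq_zero_or_pos k with rfl | hk
    · obtain ⟨x, hx, y, hy, hxy, hr, -⟩ := hm1
      obtain ⟨p, hp, q, hq, hpq, hr', -⟩ := hm2
      have fin : ∀ a b c : V, a ∈ U → b ∈ U → c ∈ U → a ≠ b → a ≠ c → R a b → ¬ R a c →
          Tr R (0 + 1) U := by
        intro a b c ha hb hc hab hac h1 h2
        exact ⟨a, ha, b, hb, c, hc, hab, hac, fun e => h2 (e ▸ h1), h1, h2, trivial⟩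
      by_cases h1 : p = x
      · subst h1; exact fin p y q hp hy hq hxy hpq hr hr'
      by_cases h2 : q = x
      · subst h2; exact fin q y p hq hy hp hxy hpq.symm hr (hs' _ _ hr')
      by_cases h3 : R x p
      · exact fin p x q hp hx hq h1 hpq (hs _ _ h3) hr'
      · exact fin x y p hx hy hp hxy (Ne.symm h1) hr h3
    obtain ⟨F, hF, f, hf, hFc⟩ := isM_of_mt hs _ _ hm1
    obtain ⟨G, hG, g, hg, hGc⟩ := isM_of_mt hs' _ _ hm2
    have hf' : IsM (fun x y => ¬ ¬ R x y) F f := by
      intro x hx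
      obtain ⟨a1, a2, a3, a4⟩ := hf x hx
      exact ⟨a1, a2, a3, not_not.2 a4⟩
    have tr_compl' : ∀ {m : ℕ} {U' : Finset V}, Tr R m U' → Tr (fun x y => ¬ R x y) m U' := by
      intro m U' h
      apply tr_compl
      simpa only [not_not] using h
    by_cases hA : ∃ w1 ∈ U, ∃ w2 ∈ U, w1 ≠ w2 ∧ w1 ∉ F ∧ w1 ∉ G ∧ w2 ∉ F ∧ w2 ∉ G
    · obtain ⟨w1, hw1, w2, hw2, hw12, h1F, h1G, h2F, h2G⟩ := hA
      by_cases hv : ∃ v ∈ U, v ≠ w1 ∧ v ≠ w2 ∧ ¬ (R w1 w2 ∧ R w1 v ∧ R w2 v) ∧
          (R w1 w2 ∨ R w1 v ∨ R w2 v)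
      · obtain ⟨v, hv, hv1, hv2, hn1, hn2⟩ := hv
        refine tr_step hs hw1 hw2 hv hw12 hv1.symm hv2.symm hn1 hn2 ?_
        have hc := card_sdiff_ge U {w1, w2, v} 3 (card3 _ _ _)
        refine ih _ (by omega) (mt_sub ?_ (rem1 hf hFc v)) (mt_sub ?_ (rem1 hg hGc v))
        · intro a ha
          simp only [Finset.mem_sdiff, Finset.mem_insert, Finset.mem_singleton, not_or] at ha ⊢
          exact ⟨hF ha.1, fun e => h1F (e ▸ ha.1), fun e => h2F (e ▸ ha.1), ha.2⟩
        · intro a ha
          simp only [Finset.mem_sdiff, Finset.mem_insert, Finset.mem_singleton, not_or] at ha ⊢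
          exact ⟨hG ha.1, fun e => h1G (e ▸ ha.1), fun e => h2G (e ▸ ha.1), ha.2⟩
      · push Not at hv
        by_cases hR : R w1 w2
        · have key : ∀ v ∈ U, v ≠ w1 → v ≠ w2 → R w1 v ∧ R w2 v := by
            intro v hvU hv1 hv2
            by_contra hcon
            have := (hv v hvU hv1 hv2 (fun _ a b => hcon ⟨a, b⟩)).1
            exact this hR
          exact caseA2 hs hF hG hf hg hFc hGc hw1 hw2 hw12 h1F h1G h2F h2G
            (fun v a b c => (key v a b c).1) (fun v a b c => (key v a b c).2)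
            (fun U' hU' h1 h2 => ih U' (by omega) h1 h2)
        · have key : ∀ v ∈ U, v ≠ w1 → v ≠ w2 → ¬ R w1 v ∧ ¬ R w2 v := by
            intro v hvU hv1 hv2
            have := hv v hvU hv1 hv2 (fun h => absurd h hR)
            exact this.2
          apply tr_compl
          refine caseA2 (R := fun x y => ¬ R x y) hs' hG hF hg hf' hGc hFc hw1 hw2 hw12 h1G h1F
            h2G h2F (fun v a b c => (key v a b c).1) (fun v a b c => (key v a b c).2)
            (fun U' hU' h1 h2 => tr_compl' (ih U' (by omega) ?_ h1))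
          simpa only [not_not] using h2
    · have hI : (F ∩ G).card ≤ 3 := by
        have h1 : (U \ (F ∪ G)).card ≤ 1 := by
          rw [Finset.card_le_one]
          intro a ha b hb
          by_contra hab
          apply hA
          simp only [Finset.mem_sdiff, Finset.mem_union, not_or] at ha hb
          exact ⟨a, ha.1, b, hb.1, hab, ha.2.1, ha.2.2, hb.2.1, hb.2.2⟩
        have h2 := Finset.card_sdiff_add_card_eq_card (Finset.union_subset hF hG)
        have h3 := Finset.card_union_add_card_inter F G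
        omega
      by_cases h2 : ∃ x ∈ F, x ∈ G ∧ f x ∉ G ∧ g x ∉ F
      · obtain ⟨x, hxF, hxG, hfG, hgF⟩ := h2
        obtain ⟨hf1, hf2, hf3, hf4⟩ := hf x hxF
        obtain ⟨hg1, hg2, hg3, hg4⟩ := hg x hxG
        refine ⟨x, hF hxF, f x, hF hf1, g x, hG hg1, hf3.symm, hg3.symm, fun e => hg4 (e ▸ hf4),
          hf4, hg4, ?_⟩
        have hc := card_sdiff_ge U {x, f x, g x} 3 (card3 _ _ _)
        have e1 := isM_rem_card hf hxF
        have e2 := isM_rem_card hg hxG
        refine ih _ (by omega) (mt_sub ?_ (mt_of_isM k _ (by omega) (isM_rem hf hxF)))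
          (mt_sub ?_ (mt_of_isM k _ (by omega) (isM_rem hg hxG)))
        · intro a ha
          simp only [Finset.mem_sdiff, Finset.mem_insert, Finset.mem_singleton, not_or] at ha ⊢
          exact ⟨hF ha.1, ha.2.1, ha.2.2, fun e => hgF (e ▸ ha.1)⟩
        · intro a ha
          simp only [Finset.mem_sdiff, Finset.mem_insert, Finset.mem_singleton, not_or] at ha ⊢
          exact ⟨hG ha.1, ha.2.1, fun e => hfG (e ▸ ha.1), ha.2.2⟩
      · push Not at h2
        by_cases h1 : ∀ a ∈ F, a ∈ G ∨ f a ∈ G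
        · refine caseBc hs hk hF hG hf hg hFc hGc hU hI h1 ?_
          intro x hx hx'
          by_cases h : f x ∈ G
          · exact Or.inl h
          · exact Or.inr (h2 x hx hx' h)
        · by_cases h1' : ∀ a ∈ G, a ∈ F ∨ g a ∈ F
          · apply tr_compl
            refine caseBc (R := fun x y => ¬ R x y) hs' hk hG hF hg hf' hGc hFc hU
              (by rw [Finset.inter_comm]; exact hI) h1' ?_
            intro x hx hx'
            by_cases h : f x ∈ G
            · exact Or.inr h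
            · exact Or.inl (h2 x hx' hx h)
          · push Not at h1 h1'
            obtain ⟨a, haF, haG, hfaG⟩ := h1
            obtain ⟨p, hpG, hpF, hgpF⟩ := h1'
            obtain ⟨hf1, hf2, hf3, hf4⟩ := hf a haF
            obtain ⟨hg1, hg2, hg3, hg4⟩ := hg p hpG
            have e1 := isM_rem_card hf haF
            have e2 := isM_rem_card hg hpG
            have hc := card_sdiff_ge U {a, f a, p, g p} 4 (card4 _ _ _ _)
            have hT : Tr R k (U \ {a, f a, p, g p}) := by
              refine ih _ (by omega) (mt_sub ?_ (mt_of_isM k _ (by omega) (isM_rem hf haF)))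
                (mt_sub ?_ (mt_of_isM k _ (by omega) (isM_rem hg hpG)))
              · intro v hv
                simp only [Finset.mem_sdiff, Finset.mem_insert, Finset.mem_singleton, not_or]
                  at hv ⊢
                exact ⟨hF hv.1, hv.2.1, hv.2.2, fun e => hpF (e ▸ hv.1), fun e => hgpF (e ▸ hv.1)⟩
              · intro v hv
                simp only [Finset.mem_sdiff, Finset.mem_insert, Finset.mem_singleton, not_or]
                  at hv ⊢
                exact ⟨hG hv.1, fun e => haG (e ▸ hv.1), fun e => hfaG (e ▸ hv.1), hv.2.1, hv.2.2⟩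
            have hap : a ≠ p := fun e => hpF (e ▸ haF)
            have hagp : a ≠ g p := fun e => hgpF (e ▸ haF)
            have hfap : f a ≠ p := fun e => hpF (e ▸ hf1)
            by_cases hR : R a p
            · refine ⟨p, hG hpG, a, hF haF, g p, hG hg1, hap.symm, hg3.symm, hagp, hs _ _ hR, hg4,
                tr_sub ?_ hT⟩
              intro v hv
              simp only [Finset.mem_sdiff, Finset.mem_insert, Finset.mem_singleton, not_or] at hv ⊢
              exact ⟨hv.1, hv.2.2.2.1, hv.2.1, hv.2.2.2.2⟩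
            · refine ⟨a, hF haF, f a, hF hf1, p, hG hpG, hf3.symm, hap, hfap, hf4, hR,
                tr_sub ?_ hT⟩
              intro v hv
              simp only [Finset.mem_sdiff, Finset.mem_insert, Finset.mem_singleton, not_or] at hv ⊢
              exact ⟨hv.1, hv.2.1, hv.2.2.1, hv.2.2.2.1⟩

end Comb

/-! ## Branch decompositions and sim-width -/

/-- a rooted binary tree with its leaves labelled by `α` (a tree with internal vertices of degree
`3` whose leaves are labelled, rooted by subdividing one of its edges) -/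
inductive BTree (α : Type) : Type
  | leaf : α → BTree α
  | node : BTree α → BTree α → BTree α

/-- the labels of the leaves -/
def BTree.leaves {α : Type} : BTree α → List α
  | .leaf a => [a]
  | .node l r => l.leaves ++ r.leaves

/-- the leaf sets of the subtrees: for every edge of the tree, the side away from the root -/
def BTree.cuts {α : Type} : BTree α → List (List α)
  | .leaf a => [[a]]
  | .node l r => (l.leaves ++ r.leaves) :: (l.cuts ++ r.cuts)

/-- `G` has an induced matching with `m` edges `a i - b i`, all from `X` to its complement -/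
def HasInducedMatching {α : Type} (G : SimpleGraph α) (X : List α) (m : ℕ) : Prop :=
  ∃ a b : Fin m → α, (∀ i, a i ∈ X ∧ b i ∉ X ∧ G.Adj (a i) (b i)) ∧
    ∀ i j, i ≠ j → a i ≠ a j ∧ b i ≠ b j ∧
      ¬ G.Adj (a i) (a j) ∧ ¬ G.Adj (b i) (b j) ∧ ¬ G.Adj (a i) (b j)

/-- some branch decomposition of `G` has sim-width at most `k` -/
def SimwLE {α : Type} (G : SimpleGraph α) (k : ℕ) : Prop :=
  ∃ t : BTree α, t.leaves.Nodup ∧ (∀ v, v ∈ t.leaves) ∧
    ∀ X ∈ t.cuts, ∀ m, HasInducedMatching G X m → m ≤ k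

/-- the sim-width of `G` (it is `0` when `G` has at most one vertex) -/
noncomputable def simw {α : Type} (G : SimpleGraph α) : ℕ :=
  if Nat.card α ≤ 1 then 0 else sInf {k | SimwLE G k}

section Lower

variable {n : ℕ}

/-- the edge set of `K_n` -/
abbrev E (n : ℕ) : Type := (⊤ : SimpleGraph (Fin n)).edgeSet

/-- the pair `xy` belongs to the list of edges -/
def Rel (X : List (E n)) (x y : Fin n) : Prop := ∃ e ∈ X, (e : Sym2 (Fin n)) = s(x, y)

theorem rel_symm (X : List (E n)) (x y : Fin n) (h : Rel X x y) : Rel X y x := by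
  obtain ⟨e, he, h⟩ := h
  exact ⟨e, he, by rw [h, Sym2.eq_swap]⟩

/-- the edge `xy` of `K_n` -/
def mk {x y : Fin n} (h : x ≠ y) : E n := ⟨s(x, y), by simpa using h⟩

theorem not_rel_of_two {e : E n} {k : ℕ} : ¬ Mt (Rel [e]) (k + 2) Finset.univ := by
  rintro ⟨x, -, y, -, hxy, ⟨e1, he1, h1⟩, p, hp, q, hq, hpq, ⟨e2, he2, h2⟩, -⟩
  rw [List.mem_singleton] at he1 he2
  subst he1
  subst he2
  rw [h1, Sym2.eq_iff] at h2
  simp only [Finset.mem_sdiff, Finset.mem_insert, Finset.mem_singleton, not_or] at hp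
  rcases h2 with h | h
  · exact hp.2.1 h.1.symm
  · exact hp.2.2 h.2.symm

theorem find (k : ℕ) (hk : 1 ≤ k) (hn : 4 * k ≤ n + 2) (hn3 : 3 ≤ n) : ∀ t : BTree (E n),
    Mt (Rel t.leaves) k Finset.univ →
    ∃ X ∈ t.cuts, Mt (Rel X) k Finset.univ ∧ Mt (fun x y => ¬ Rel X x y) k Finset.univ
  | .leaf e, h => by
    rcases (show k = 1 ∨ ∃ j, k = j + 2 from by
      rcases Nat.lt_or_ge k 2 with h | h
      · left; omega
      · right; exact ⟨k - 2, by omega⟩) with rfl | ⟨j, rfl⟩
    · refine ⟨[e], by simp [BTree.cuts], h, ?_⟩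
      obtain ⟨e, he⟩ := e
      induction e using Sym2.ind with
      | _ p q =>
        have hpq : p ≠ q := by simpa using he
        obtain ⟨r, hr⟩ : ((Finset.univ : Finset (Fin n)) \ {p, q}).Nonempty := by
          apply Finset.card_pos.1
          have := card_sdiff_ge (Finset.univ : Finset (Fin n)) {p, q} 2 (card2 _ _)
          rw [Finset.card_univ, Fintype.card_fin] at this
          omega
        simp only [Finset.mem_sdiff, Finset.mem_insert, Finset.mem_singleton, not_or] at hr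
        refine ⟨p, Finset.mem_univ _, r, Finset.mem_univ _, Ne.symm hr.2.1, ?_, trivial⟩
        rintro ⟨e', he', h'⟩
        rw [List.mem_singleton] at he'
        subst he'
        simp only [Sym2.eq_iff] at h'
        rcases h' with h' | h'
        · exact hr.2.2 h'.2.symm
        · exact hpq h'.2.symm
    · exact absurd h not_rel_of_two
  | .node l r, h => by
    classical
    by_cases hl : Mt (Rel l.leaves) k Finset.univ
    · obtain ⟨X, hX, h1, h2⟩ := find k hk hn hn3 l hl
      exact ⟨X, by simp [BTree.cuts, hX], h1, h2⟩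
    by_cases hr : Mt (Rel r.leaves) k Finset.univ
    · obtain ⟨X, hX, h1, h2⟩ := find k hk hn hn3 r hr
      exact ⟨X, by simp [BTree.cuts, hX], h1, h2⟩
    refine ⟨l.leaves ++ r.leaves, by simp [BTree.cuts], h, ?_⟩
    obtain ⟨i, hi⟩ := ramsey3 (c := fun x y => if Rel l.leaves x y then 0 else
      if Rel r.leaves x y then 1 else 2) (by
        intro x y
        have e1 : Rel l.leaves x y ↔ Rel l.leaves y x := ⟨rel_symm _ _ _, rel_symm _ _ _⟩
        have e2 : Rel r.leaves x y ↔ Rel r.leaves y x := ⟨rel_symm _ _ _, rel_symm _ _ _⟩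
        simp only [e1, e2]) k Finset.univ (by simpa using hn)
    have aux3 : ∀ i : Fin 3, i = 0 ∨ i = 1 ∨ i = 2 := by decide
    have hi3 := aux3 i
    rcases hi3 with rfl | rfl | rfl
    · refine absurd (mt_mono k _ _ (Finset.Subset.refl _) ?_ hi) hl
      intro x _ y _ _ hc
      by_contra hcon
      by_cases h2 : Rel r.leaves x y <;> simp [hcon, h2] at hc
    · refine absurd (mt_mono k _ _ (Finset.Subset.refl _) ?_ hi) hr
      intro x _ y _ _ hc
      by_contra hcon
      by_cases h2 : Rel l.leaves x y <;> simp [hcon, h2] at hc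
    · refine mt_mono k _ _ (Finset.Subset.refl _) ?_ hi
      intro x _ y _ _ hc hrel
      obtain ⟨e, he, h'⟩ := hrel
      rw [List.mem_append] at he
      rcases he with he | he
      · have : Rel l.leaves x y := ⟨e, he, h'⟩
        simp [this] at hc
      · have : Rel r.leaves x y := ⟨e, he, h'⟩
        by_cases h2 : Rel l.leaves x y <;> simp [this, h2] at hc

/-- disjoint cherries give pairs of edges -/
theorem pairs_of_tr (X : List (E n)) : ∀ (k : ℕ) (U : Finset (Fin n)), Tr (Rel X) k U →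
    ∃ a b : Fin k → E n, (∀ i, a i ∈ X ∧ b i ∉ X ∧ a i ≠ b i ∧
        ∃ v, v ∈ (a i : Sym2 (Fin n)) ∧ v ∈ (b i : Sym2 (Fin n))) ∧
      (∀ i j, i ≠ j → ∀ v, (v ∈ (a i : Sym2 (Fin n)) ∨ v ∈ (b i : Sym2 (Fin n))) →
        ¬ (v ∈ (a j : Sym2 (Fin n)) ∨ v ∈ (b j : Sym2 (Fin n)))) ∧
      (∀ i v, (v ∈ (a i : Sym2 (Fin n)) ∨ v ∈ (b i : Sym2 (Fin n))) → v ∈ U) := by
  intro k
  induction k with
  | zero => intro U _; exact ⟨Fin.elim0, Fin.elim0, fun i => i.elim0, fun i => i.elim0,
      fun i => i.elim0⟩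
  | succ k ih =>
    rintro U ⟨x, hx, y, hy, z, hz, hxy, hxz, hyz, ⟨e, he, hexy⟩, h2, hT⟩
    obtain ⟨a, b, h3, h4, h5⟩ := ih _ hT
    have hb : mk hxz ∉ X := fun h => h2 ⟨_, h, rfl⟩
    have hv : ∀ v, (v ∈ (e : Sym2 (Fin n)) ∨ v ∈ ((mk hxz : E n) : Sym2 (Fin n))) →
        (v = x ∨ v = y ∨ v = z) := by
      intro v hv
      rw [hexy] at hv
      simp only [mk, Sym2.mem_iff] at hv
      tauto
    have hdis : ∀ j v, (v ∈ (e : Sym2 (Fin n)) ∨ v ∈ ((mk hxz : E n) : Sym2 (Fin n))) →
        ¬ (v ∈ (a j : Sym2 (Fin n)) ∨ v ∈ (b j : Sym2 (Fin n))) := by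
      intro j v h6 h7
      have h8 := h5 j v h7
      simp only [Finset.mem_sdiff, Finset.mem_insert, Finset.mem_singleton, not_or] at h8
      rcases hv v h6 with h | h | h
      · exact h8.2.1 h
      · exact h8.2.2.1 h
      · exact h8.2.2.2 h
    refine ⟨Fin.cons e a, Fin.cons (mk hxz) b, ?_, ?_, ?_⟩
    · intro i
      refine Fin.cases ?_ (fun i => ?_) i
      · simp only [Fin.cons_zero]
        refine ⟨he, hb, fun h => hb (h ▸ he), x, ?_, ?_⟩
        · rw [hexy]; simp
        · simp [mk]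
      · simpa only [Fin.cons_succ] using h3 i
    · intro i j
      refine Fin.cases ?_ (fun i => ?_) i
      · refine Fin.cases ?_ (fun j => ?_) j
        · intro h; exact absurd rfl h
        · intro _ v
          simp only [Fin.cons_zero, Fin.cons_succ]
          exact hdis j v
      · refine Fin.cases ?_ (fun j => ?_) j
        · intro _ v
          simp only [Fin.cons_zero, Fin.cons_succ]
          exact fun h h' => hdis i v h' h
        · intro hij v
          simp only [Fin.cons_succ]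
          exact h4 i j (fun e => hij (by rw [e])) v
    · intro i v
      refine Fin.cases ?_ (fun i => ?_) i
      · simp only [Fin.cons_zero]
        intro h
        rcases hv v h with h | h | h <;> rw [h] <;> assumption
      · simp only [Fin.cons_succ]
        exact fun h => (Finset.mem_sdiff.1 (h5 i v h)).1

theorem lower (k : ℕ) (hk : 1 ≤ k) (hn : 4 * k ≤ n + 2) (hn3 : 3 ≤ n) (j : ℕ)
    (h : SimwLE (⊤ : SimpleGraph (Fin n)).lineGraph j) : k ≤ j := by
  obtain ⟨t, -, hall, hX⟩ := h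
  have h1 : Mt (Rel t.leaves) k Finset.univ := by
    apply mt_complete
    · rw [Finset.card_univ, Fintype.card_fin]; omega
    · intro x _ y _ hxy
      exact ⟨mk hxy, hall _, rfl⟩
  obtain ⟨X, hXt, h2, h3⟩ := find k hk hn hn3 t h1
  have h4 := lemX (rel_symm X) k Finset.univ
    (by rw [Finset.card_univ, Fintype.card_fin]; exact hn) h2 h3
  obtain ⟨a, b, h5, h6, -⟩ := pairs_of_tr X k _ h4
  refine hX X hXt k ⟨a, b, ?_, ?_⟩
  · intro i
    obtain ⟨h7, h8, h9, h10⟩ := h5 i
    exact ⟨h7, h8, SimpleGraph.lineGraph_adj_iff_exists.2 ⟨h9, h10⟩⟩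
  · intro i j hij
    have hv := h6 i j hij
    obtain ⟨-, -, -, v, hva, hvb⟩ := h5 i
    refine ⟨fun e => ?_, fun e => ?_, fun e => ?_, fun e => ?_, fun e => ?_⟩
    · exact hv v (Or.inl hva) (Or.inl (e ▸ hva))
    · exact hv v (Or.inr hvb) (Or.inr (e ▸ hvb))
    · obtain ⟨-, u, hu1, hu2⟩ := SimpleGraph.lineGraph_adj_iff_exists.1 e
      exact hv u (Or.inl hu1) (Or.inl hu2)
    · obtain ⟨-, u, hu1, hu2⟩ := SimpleGraph.lineGraph_adj_iff_exists.1 e
      exact hv u (Or.inr hu1) (Or.inr hu2)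
    · obtain ⟨-, u, hu1, hu2⟩ := SimpleGraph.lineGraph_adj_iff_exists.1 e
      exact hv u (Or.inl hu1) (Or.inr hu2)

end Lower

section Upper

variable {n : ℕ}

theorem comb {α : Type} : ∀ l : List α, l ≠ [] →
    ∃ t : BTree α, t.leaves = l ∧ ∀ X ∈ t.cuts, ∀ v ∈ X, v ∈ l
  | [], h => absurd rfl h
  | [a], _ => ⟨.leaf a, rfl, by simp [BTree.cuts]⟩
  | a :: b :: l, _ => by
    obtain ⟨t, h1, h2⟩ := comb (b :: l) (by simp)
    refine ⟨.node (.leaf a) t, by simp [BTree.leaves, h1], ?_⟩
    intro X hX v hv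
    simp only [BTree.cuts, BTree.leaves, h1, List.mem_cons, List.mem_append,
      List.not_mem_nil, or_false] at hX
    rcases hX with rfl | rfl | hX
    · simpa using hv
    · rw [List.mem_singleton] at hv; simp [hv]
    · exact List.mem_cons_of_mem _ (h2 X hX v hv)

theorem join {α : Type} {C : List α → Prop} {l₁ l₂ : List α}
    (h1 : l₁ = [] ∨ ∃ t : BTree α, t.leaves = l₁ ∧ ∀ X ∈ t.cuts, C X)
    (h2 : l₂ = [] ∨ ∃ t : BTree α, t.leaves = l₂ ∧ ∀ X ∈ t.cuts, C X) (h : C (l₁ ++ l₂)) :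
    (l₁ ++ l₂) = [] ∨ ∃ t : BTree α, t.leaves = l₁ ++ l₂ ∧ ∀ X ∈ t.cuts, C X := by
  rcases h1 with rfl | ⟨t1, ht1, hc1⟩
  · simpa using h2
  · rcases h2 with rfl | ⟨t2, ht2, hc2⟩
    · right; exact ⟨t1, by simpa using ht1, hc1⟩
    · right
      refine ⟨.node t1 t2, by simp [BTree.leaves, ht1, ht2], ?_⟩
      intro X hX
      simp only [BTree.cuts, List.mem_cons, List.mem_append] at hX
      rcases hX with rfl | hX | hX
      · rw [ht1, ht2]; exact h
      · exact hc1 X hX
      · exact hc2 X hX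

theorem single {α : Type} {C : List α → Prop} (l : List α)
    (h : ∀ X : List α, (∀ v ∈ X, v ∈ l) → C X) :
    l = [] ∨ ∃ t : BTree α, t.leaves = l ∧ ∀ X ∈ t.cuts, C X := by
  by_cases hl : l = []
  · exact Or.inl hl
  · obtain ⟨t, h1, h2⟩ := comb l hl
    exact Or.inr ⟨t, h1, fun X hX => h X (h2 X hX)⟩

/-- pairwise disjoint edges all hitting a set of `k` vertices -/
theorem hit {k m : ℕ} (Z : Finset (Fin n)) (hZ : Z.card ≤ k) (a : Fin m → E n)
    (h : ∀ i j, i ≠ j → a i ≠ a j ∧ ¬ (⊤ : SimpleGraph (Fin n)).lineGraph.Adj (a i) (a j))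
    (hz : ∀ i, ∃ v ∈ Z, v ∈ (a i : Sym2 (Fin n))) : m ≤ k := by
  choose z hz1 hz2 using hz
  have hinj : Function.Injective z := by
    intro i j hij
    by_contra hne
    obtain ⟨h1, h2⟩ := h i j hne
    exact h2 (SimpleGraph.lineGraph_adj_iff_exists.2 ⟨h1, z i, hz2 i, hij ▸ hz2 j⟩)
  have h1 : (Finset.univ.image z).card = m := by
    rw [Finset.card_image_of_injective _ hinj, Finset.card_univ, Fintype.card_fin]
  have h2 : Finset.univ.image z ⊆ Z := by
    intro v hv
    obtain ⟨i, -, rfl⟩ := Finset.mem_image.1 hv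
    exact hz1 i
  have := Finset.card_le_card h2
  omega

/-- pairwise disjoint edges inside a set of `2k+1` vertices -/
theorem inside {k m : ℕ} (Z : Finset (Fin n)) (hZ : Z.card ≤ 2 * k + 1) (a : Fin m → E n)
    (h : ∀ i j, i ≠ j → a i ≠ a j ∧ ¬ (⊤ : SimpleGraph (Fin n)).lineGraph.Adj (a i) (a j))
    (hz : ∀ i, ∀ v, v ∈ (a i : Sym2 (Fin n)) → v ∈ Z) : m ≤ k := by
  have hrep : ∀ e : E n, ∃ x y : Fin n, x ≠ y ∧ (e : Sym2 (Fin n)) = s(x, y) := by
    rintro ⟨e, he⟩
    induction e using Sym2.ind with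
    | _ p q => exact ⟨p, q, by simpa using he, rfl⟩
  choose x y hxy hxye using fun i => hrep (a i)
  have hdis : ∀ i j v, v ∈ (a i : Sym2 (Fin n)) → v ∈ (a j : Sym2 (Fin n)) → i = j := by
    intro i j v hi hj
    by_contra hne
    obtain ⟨h1, h2⟩ := h i j hne
    exact h2 (SimpleGraph.lineGraph_adj_iff_exists.2 ⟨h1, v, hi, hj⟩)
  have hx : ∀ i, x i ∈ (a i : Sym2 (Fin n)) := fun i => by rw [hxye]; simp
  have hy : ∀ i, y i ∈ (a i : Sym2 (Fin n)) := fun i => by rw [hxye]; simp
  have hinj : Function.Injective (Sum.elim x y) := by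
    rintro (i | i) (j | j) hij
    · simp only [Sum.elim_inl] at hij
      rw [hdis i j (x i) (hx i) (hij ▸ hx j)]
    · simp only [Sum.elim_inl, Sum.elim_inr] at hij
      have e := hdis i j (x i) (hx i) (hij ▸ hy j)
      subst e
      exact absurd hij (hxy i)
    · simp only [Sum.elim_inl, Sum.elim_inr] at hij
      have e := hdis i j (y i) (hy i) (hij ▸ hx j)
      subst e
      exact absurd hij.symm (hxy i)
    · simp only [Sum.elim_inr] at hij
      rw [hdis i j (y i) (hy i) (hij ▸ hy j)]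
  have h1 : (Finset.univ.image (Sum.elim x y)).card = m + m := by
    rw [Finset.card_image_of_injective _ hinj, Finset.card_univ, Fintype.card_sum,
      Fintype.card_fin]
  have h2 : Finset.univ.image (Sum.elim x y) ⊆ Z := by
    intro v hv
    obtain ⟨i, -, rfl⟩ := Finset.mem_image.1 hv
    rcases i with i | i
    · exact hz i _ (hx i)
    · exact hz i _ (hy i)
  have := Finset.card_le_card h2
  omega

theorem upper (k : ℕ) (hn : n ≤ 4 * k + 1) (hn3 : 3 ≤ n) :
    SimwLE (⊤ : SimpleGraph (Fin n)).lineGraph k := by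
  classical
  set G := (⊤ : SimpleGraph (Fin n)).lineGraph with hG
  have : Fintype (E n) := Fintype.ofFinite _
  let Z1 : Finset (Fin n) := Finset.univ.filter (fun v => v.1 < 2 * k + 1)
  let Z2 : Finset (Fin n) := Finset.univ.filter (fun v => 2 * k + 1 ≤ v.1 ∧ v.1 < 3 * k + 1)
  let Z3 : Finset (Fin n) := Finset.univ.filter (fun v => 3 * k + 1 ≤ v.1)
  have card_le : ∀ (Z : Finset (Fin n)) (lo hi : ℕ), (∀ v ∈ Z, lo ≤ v.1 ∧ v.1 < hi) →
      Z.card ≤ hi - lo := by
    intro Z lo hi h
    have h1 : Z.card = (Z.image (fun v : Fin n => v.1)).card :=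
      (Finset.card_image_of_injective _ Fin.val_injective).symm
    have h2 : Z.image (fun v : Fin n => v.1) ⊆ Finset.Ico lo hi := by
      intro v hv
      obtain ⟨w, hw, rfl⟩ := Finset.mem_image.1 hv
      exact Finset.mem_Ico.2 (h w hw)
    have h3 := Finset.card_le_card h2
    rw [Nat.card_Ico] at h3
    omega
  have hZ1 : Z1.card ≤ 2 * k + 1 := by
    have := card_le Z1 0 (2 * k + 1) (fun v hv => ⟨Nat.zero_le _, by simpa [Z1] using hv⟩)
    omega
  have hZ2 : Z2.card ≤ k := by
    have := card_le Z2 (2 * k + 1) (3 * k + 1) (fun v hv => by simpa [Z2] using hv)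
    omega
  have hZ3 : Z3.card ≤ k := by
    have := card_le Z3 (3 * k + 1) (4 * k + 1) (fun v hv => ⟨by simpa [Z3] using hv, by omega⟩)
    omega
  let p2 : E n → Prop := fun e => ∃ v ∈ Z2, v ∈ (e : Sym2 (Fin n))
  let p3 : E n → Prop := fun e => ∃ v ∈ Z3, v ∈ (e : Sym2 (Fin n))
  let L2 : List (E n) := (Finset.univ : Finset (E n)).toList.filter (fun e => decide (p2 e))
  let L3 : List (E n) := (Finset.univ : Finset (E n)).toList.filter
    (fun e => decide (¬ p2 e ∧ p3 e))
  let L1 : List (E n) := (Finset.univ : Finset (E n)).toList.filter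
    (fun e => decide (¬ p2 e ∧ ¬ p3 e))
  have m1 : ∀ e, e ∈ L1 ↔ ¬ p2 e ∧ ¬ p3 e := by intro e; simp [L1]
  have m2 : ∀ e, e ∈ L2 ↔ p2 e := by intro e; simp [L2]
  have m3 : ∀ e, e ∈ L3 ↔ ¬ p2 e ∧ p3 e := by intro e; simp [L3]
  let C : List (E n) → Prop := fun X => ∀ m, HasInducedMatching G X m → m ≤ k
  have c1 : ∀ X : List (E n), (∀ v ∈ X, v ∈ L1) → C X := by
    intro X hX m hm
    obtain ⟨a, b, h1, h2⟩ := hm
    refine inside Z1 hZ1 a (fun i j hij => ⟨(h2 i j hij).1, (h2 i j hij).2.2.1⟩) ?_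
    intro i v hv
    have h3 := (m1 _).1 (hX _ (h1 i).1)
    by_contra hcon
    have h4 : ¬ v.1 < 2 * k + 1 := by simpa [Z1] using hcon
    by_cases h5 : v.1 < 3 * k + 1
    · exact h3.1 ⟨v, by simp only [Z2, Finset.mem_filter, Finset.mem_univ, true_and]; omega, hv⟩
    · exact h3.2 ⟨v, by simp only [Z3, Finset.mem_filter, Finset.mem_univ, true_and]; omega, hv⟩
  have c2 : ∀ X : List (E n), (∀ v ∈ X, v ∈ L2) → C X := by
    intro X hX m hm
    obtain ⟨a, b, h1, h2⟩ := hm
    exact hit Z2 hZ2 a (fun i j hij => ⟨(h2 i j hij).1, (h2 i j hij).2.2.1⟩)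
      (fun i => (m2 _).1 (hX _ (h1 i).1))
  have c3 : ∀ X : List (E n), (∀ v ∈ X, v ∈ L3) → C X := by
    intro X hX m hm
    obtain ⟨a, b, h1, h2⟩ := hm
    exact hit Z3 hZ3 a (fun i j hij => ⟨(h2 i j hij).1, (h2 i j hij).2.2.1⟩)
      (fun i => ((m3 _).1 (hX _ (h1 i).1)).2)
  have c12 : C (L1 ++ L2) := by
    intro m hm
    obtain ⟨a, b, h1, h2⟩ := hm
    refine hit Z3 hZ3 b (fun i j hij => ⟨(h2 i j hij).2.1, (h2 i j hij).2.2.2.1⟩) (fun i => ?_)
    have h3 := (h1 i).2.1
    rw [List.mem_append, not_or, m1, m2] at h3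
    tauto
  have c123 : C ((L1 ++ L2) ++ L3) := by
    intro m hm
    obtain ⟨a, b, h1, h2⟩ := hm
    rcases Nat.eq_zero_or_pos m with rfl | hm0
    · exact Nat.zero_le _
    · exfalso
      have h3 := (h1 ⟨0, hm0⟩).2.1
      rw [List.mem_append, List.mem_append, m1, m2, m3] at h3
      tauto
  have H := join (join (single L1 c1) (single L2 c2) c12) (single L3 c3) c123
  have hall : ∀ e : E n, e ∈ (L1 ++ L2) ++ L3 := by
    intro e
    rw [List.mem_append, List.mem_append, m1, m2, m3]
    by_cases h : p2 e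
    · exact Or.inl (Or.inr h)
    · by_cases h' : p3 e
      · exact Or.inr ⟨h, h'⟩
      · exact Or.inl (Or.inl ⟨h, h'⟩)
  rcases H with H | ⟨t, ht, hC⟩
  · exfalso
    have : mk (x := (⟨0, by omega⟩ : Fin n)) (y := ⟨1, by omega⟩) (by simp) ∈ (L1 ++ L2) ++ L3 :=
      hall _
    rw [H] at this
    simp at this
  · refine ⟨t, ?_, ?_, hC⟩
    · rw [ht]
      have nd : ∀ q : E n → Bool, ((Finset.univ : Finset (E n)).toList.filter q).Nodup :=
        fun q => (Finset.nodup_toList _).filter _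
      refine List.Nodup.append (List.Nodup.append (nd _) (nd _) ?_) (nd _) ?_
      · intro e h1 h2
        exact ((m1 e).1 h1).1 ((m2 e).1 h2)
      · intro e h1 h2
        have h3 := (m3 e).1 h2
        rw [List.mem_append, m1, m2] at h1
        rcases h1 with h1 | h1
        · exact h1.2 h3.2
        · exact h3.1 h1
    · rw [ht]; exact hall

end Upper

/-- The sim-width of the line graph of `K_n` is `⌊(n+2)/4⌋`, except that it is `0` for `n = 2`. -/
theorem result (n : ℕ) :
    simw (⊤ : SimpleGraph (Fin n)).lineGraph = if n = 2 then 0 else (n + 2) / 4 := by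
  rcases Nat.lt_or_ge n 3 with hn | hn
  · have h1 : Nat.card (⊤ : SimpleGraph (Fin n)).edgeSet ≤ 1 := by
      rw [Nat.card_eq_fintype_card]
      interval_cases n <;> decide
    rw [simw, if_pos h1]
    interval_cases n <;> rfl
  · have h1 : ¬ Nat.card (⊤ : SimpleGraph (Fin n)).edgeSet ≤ 1 := by
      have hne : mk (x := (⟨0, by omega⟩ : Fin n)) (y := ⟨1, by omega⟩) (by simp) ≠
          mk (x := (⟨0, by omega⟩ : Fin n)) (y := ⟨2, by omega⟩) (by simp) := by
        intro h
        have := congrArg Subtype.val h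
        simp [mk] at this
      have : Fintype (E n) := Fintype.ofFinite _
      rw [Nat.card_eq_fintype_card, not_le]
      exact Fintype.one_lt_card_iff.2 ⟨_, _, hne⟩
    rw [simw, if_neg h1, if_neg (by omega)]
    have hu := upper (n := n) ((n + 2) / 4) (by omega) hn
    apply le_antisymm
    · exact Nat.sInf_le hu
    · exact le_csInf ⟨_, hu⟩ (fun j hj => lower ((n + 2) / 4) (by omega) (by omega) hn j hj)

end Pool.Agent.Results.MP_598d44_co.SimWidthLineComplete
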